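import Mathlib

set_option autoImplicit false

/-!
The counterexample in every characteristic `p` (after the file `Pool/Agent/S00136.lean` of helper17, `p = 2`).
`P` is the localization of `F_p[x,y,z,u]` at the origin, `a = (xy, xz, y(z-u^p))` and
`T = {(f,g) ∈ P × P : f - g ∈ a}`.
-/

noncomputable section
open MvPolynomial

namespace Pool.Agent.H77.INS.Fc

variable {p : ℕ} [hp : Fact p.Prime]



abbrev P0'  := MvPolynomial (Fin 4) (ZMod p)

/-- congruence principle: an endomorphism of `P0` congruent to the identity on variables modulo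
`I` is congruent to the identity modulo `I`. -/
lemma sub_mem_of_X (κ : (@P0' p _) →ₐ[ZMod p] (@P0' p _)) (I : Ideal (@P0' p _))
    (h : ∀ i, X i - κ (X i) ∈ I) (f : (@P0' p _)) : f - κ f ∈ I := by
  have e : (Ideal.Quotient.mkₐ (ZMod p) I) = (Ideal.Quotient.mkₐ (ZMod p) I).comp κ := by
    apply MvPolynomial.algHom_ext
    intro i
    simp only [Ideal.Quotient.mkₐ_eq_mk, AlgHom.coe_comp, Function.comp_apply]
    exact Ideal.Quotient.eq.mpr (h i)
  have := congrArg (fun g => g f) e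
  simp only [Ideal.Quotient.mkₐ_eq_mk, AlgHom.coe_comp, Function.comp_apply] at this
  exact Ideal.Quotient.eq.mp this

/-- the maximal ideal of the origin -/
def m0'  : Ideal (@P0' p _) := RingHom.ker (constantCoeff : (@P0' p _) →+* ZMod p)

instance : ((@m0' p _)).IsPrime := RingHom.ker_isPrime _

lemma ker_eq (κ : (@P0' p _) →ₐ[ZMod p] (@P0' p _)) (I : Ideal (@P0' p _))
    (h : ∀ i, X i - κ (X i) ∈ I) (h' : ∀ f ∈ I, κ f = 0) : I = RingHom.ker κ := by
  ext f
  constructor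
  · intro hf; exact h' f hf
  · intro hf
    have := sub_mem_of_X κ I h f
    rw [RingHom.mem_ker] at hf
    rw [hf, sub_zero] at this
    exact this

def κ1'  : (@P0' p _) →ₐ[ZMod p] (@P0' p _) := aeval ![X 0, 0, 0, X 3]
def κ2'  : (@P0' p _) →ₐ[ZMod p] (@P0' p _) := aeval ![0, 0, X 2, X 3]
def κ3'  : (@P0' p _) →ₐ[ZMod p] (@P0' p _) := aeval ![0, X 1, X 3 ^ p, X 3]

lemma κ1_0 : (@κ1' p _) (X 0) = X 0 := by simp [κ1']
lemma κ1_1 : (@κ1' p _) (X 1) = 0 := by simp [κ1']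
lemma κ1_2 : (@κ1' p _) (X 2) = 0 := by simp [κ1']
lemma κ1_3 : (@κ1' p _) (X 3) = X 3 := by simp [κ1']
lemma κ2_0 : (@κ2' p _) (X 0) = 0 := by simp [κ2']
lemma κ2_1 : (@κ2' p _) (X 1) = 0 := by simp [κ2']
lemma κ2_2 : (@κ2' p _) (X 2) = X 2 := by simp [κ2']
lemma κ2_3 : (@κ2' p _) (X 3) = X 3 := by simp [κ2']
lemma κ3_0 : (@κ3' p _) (X 0) = 0 := by simp [κ3']
lemma κ3_1 : (@κ3' p _) (X 1) = X 1 := by simp [κ3']
lemma κ3_2 : (@κ3' p _) (X 2) = X 3 ^ p := by simp [κ3']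
lemma κ3_3 : (@κ3' p _) (X 3) = X 3 := by simp [κ3']

lemma ker1 : Ideal.span {X 1, X 2} = RingHom.ker (@κ1' p _) := by
  apply ker_eq
  · intro i
    fin_cases i <;> simp [κ1']
    · exact Ideal.subset_span (by simp)
    · exact Ideal.subset_span (by simp)
  · intro f hf
    rw [Ideal.mem_span_pair] at hf
    obtain ⟨a, b, rfl⟩ := hf
    simp [κ1']

lemma ker2 : Ideal.span {X 0, X 1} = RingHom.ker (@κ2' p _) := by
  apply ker_eq
  · intro i
    fin_cases i <;> simp [κ2']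
    · exact Ideal.subset_span (by simp)
    · exact Ideal.subset_span (by simp)
  · intro f hf
    rw [Ideal.mem_span_pair] at hf
    obtain ⟨a, b, rfl⟩ := hf
    simp [κ2']

lemma ker3 : Ideal.span {X 0, X 2 - X 3 ^ p} = RingHom.ker (@κ3' p _) := by
  apply ker_eq
  · intro i
    fin_cases i <;> simp [κ3']
    · exact Ideal.subset_span (by simp)
    · exact Ideal.subset_span (by simp)
  · intro f hf
    rw [Ideal.mem_span_pair] at hf
    obtain ⟨a, b, rfl⟩ := hf
    simp [κ3']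

/-- the ideal `(xy, xz, y(z-u²))` -/
def a0'  : Ideal (@P0' p _) := Ideal.span {X 0 * X 1, X 0 * X 2, X 1 * (X 2 - X 3 ^ p)}

lemma X_ne (i : Fin 4) : (X i : (@P0' p _)) ≠ 0 := MvPolynomial.X_ne_zero i

lemma mem_a0_iff (f : (@P0' p _)) : f ∈ (@a0' p _) ↔ (@κ1' p _) f = 0 ∧ (@κ2' p _) f = 0 ∧ (@κ3' p _) f = 0 := by
  constructor
  · intro hf
    refine ⟨?_, ?_, ?_⟩
    · revert f
      change (@a0' p _) ≤ RingHom.ker (@κ1' p _)
      rw [a0', Ideal.span_le]
      rintro g (rfl | rfl | rfl) <;> simp [κ1']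
    · revert f
      change (@a0' p _) ≤ RingHom.ker (@κ2' p _)
      rw [a0', Ideal.span_le]
      rintro g (rfl | rfl | rfl) <;> simp [κ2']
    · revert f
      change (@a0' p _) ≤ RingHom.ker (@κ3' p _)
      rw [a0', Ideal.span_le]
      rintro g (rfl | rfl | rfl) <;> simp [κ3']
  · rintro ⟨h1, h2, h3⟩
    have h3' : f ∈ Ideal.span {(X 0 : (@P0' p _)), X 2 - X 3 ^ p} := by rw [ker3]; exact h3
    obtain ⟨α, γ, hf⟩ := Ideal.mem_span_pair.mp h3'
    -- γ * (z - u^2) in (x,y)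
    have hγ : (@κ2' p _) γ = 0 := by
      have : (@κ2' p _) γ * (X 2 - X 3 ^ p) = 0 := by
        have := h2
        rw [← hf] at this
        simpa [κ2_0, κ2_2, κ2_3] using this
      rcases mul_eq_zero.mp this with h | h
      · exact h
      · exfalso
        have := congrArg (eval (fun i : Fin 4 => if i = 2 then (1 : ZMod p) else 0)) h
        simp at this
    have hγ' : γ ∈ Ideal.span {(X 0 : (@P0' p _)), X 1} := by rw [ker2]; exact hγ
    obtain ⟨γ1, γ2, hγ2⟩ := Ideal.mem_span_pair.mp hγ'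
    obtain ⟨α', hα'⟩ : ∃ α', α' = α + γ1 * (X 2 - X 3 ^ p) := ⟨_, rfl⟩
    have hf2 : f = α' * X 0 + γ2 * (X 1 * (X 2 - X 3 ^ p)) := by
      rw [← hf, ← hγ2, hα']; ring
    have hα : (@κ1' p _) α' = 0 := by
      have : (@κ1' p _) α' * X 0 = 0 := by
        have h := h1
        rw [hf2] at h
        simpa [κ1_0, κ1_1, κ1_2, κ1_3] using h
      rcases mul_eq_zero.mp this with h | h
      · exact h
      · exact absurd h (X_ne 0)
    have hα' : α' ∈ Ideal.span {(X 1 : (@P0' p _)), X 2} := by rw [ker1]; exact hα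
    obtain ⟨β, β', hβ⟩ := Ideal.mem_span_pair.mp hα'
    have hf3 : f = β * (X 0 * X 1) + β' * (X 0 * X 2) + γ2 * (X 1 * (X 2 - X 3 ^ p)) := by
      rw [hf2, ← hβ]; ring
    rw [hf3]
    refine Ideal.add_mem _ (Ideal.add_mem _ ?_ ?_) ?_ <;>
    · refine Ideal.mul_mem_left _ _ (Ideal.subset_span (by simp))

lemma u_reg (f : (@P0' p _)) (h : X 3 * f ∈ (@a0' p _)) : f ∈ (@a0' p _) := by
  rw [mem_a0_iff] at h ⊢
  obtain ⟨h1, h2, h3⟩ := h
  rw [map_mul, κ1_3] at h1
  rw [map_mul, κ2_3] at h2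
  rw [map_mul, κ3_3] at h3
  exact ⟨(mul_eq_zero.mp h1).resolve_left (X_ne 3), (mul_eq_zero.mp h2).resolve_left (X_ne 3),
    (mul_eq_zero.mp h3).resolve_left (X_ne 3)⟩

/-! the Frobenius splitting -/

def half (p : ℕ) (m : Fin 4 →₀ ℕ) : Fin 4 →₀ ℕ := m.mapRange (· / p) (Nat.zero_div p)

omit hp in
lemma half_apply (m : Fin 4 →₀ ℕ) (i : Fin 4) : half p m i = m i / p := by
  simp [half]

open Classical in
def Φ0'  : (@P0' p _) →ₗ[ZMod p] (@P0' p _) :=
  (basisMonomials (Fin 4) (ZMod p)).constr (ZMod p)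
    (fun m => if m = p • half p m then monomial (half p m) 1 else 0)

open Classical in
lemma Φ0_monomial (m : Fin 4 →₀ ℕ) :
    (@Φ0' p _) (monomial m 1) = if m = p • half p m then monomial (half p m) 1 else 0 := by
  have := (basisMonomials (Fin 4) (ZMod p)).constr_basis (ZMod p)
    (fun m => if m = p • half p m then (monomial (half p m) 1 : (@P0' p _)) else 0) m
  simpa [Φ0'] using this

lemma Φ0_one : (@Φ0' p _) 1 = 1 := by
  have h : (1 : (@P0' p _)) = monomial 0 1 := rfl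
  rw [h, Φ0_monomial]
  have : half p 0 = 0 := by ext i; simp [half_apply]
  simp [this]

/-- induction for polynomials over `F_p` -/
lemma ind {M : (@P0' p _) → Prop} (hm : ∀ m, M (monomial m 1))
    (hs : ∀ (c : ZMod p) f, M f → M (c • f))
    (ha : ∀ f g, M f → M g → M (f + g)) (f : (@P0' p _)) : M f := by
  induction f using MvPolynomial.induction_on' with
  | monomial u a =>
    have h : (monomial u a : (@P0' p _)) = a • monomial u 1 := by
      rw [smul_monomial, smul_eq_mul, mul_one]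
    rw [h]
    exact hs a _ (hm u)
  | add v w hv hw => exact ha v w hv hw

lemma Φ0_mul (a b : (@P0' p _)) : (@Φ0' p _) (a ^ p * b) = a * (@Φ0' p _) b := by
  induction b using ind with
  | hs c f hf => rw [mul_smul_comm, map_smul, map_smul, mul_smul_comm, hf]
  | ha f g hf hg => rw [mul_add, map_add, map_add, mul_add, hf, hg]
  | hm m =>
    induction a using ind with
    | hs c f hf =>
      have : (c • f) ^ p = c • f ^ p := by rw [smul_pow, ZMod.pow_card]
      rw [this, smul_mul_assoc, map_smul, hf, smul_mul_assoc]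
    | ha f g hf hg =>
      have : (f + g) ^ p = f ^ p + g ^ p := add_pow_char f g p
      rw [this, add_mul, add_mul, map_add, hf, hg]
    | hm n =>
      rw [monomial_pow, monomial_mul, one_pow, one_mul, Φ0_monomial, Φ0_monomial]
      have h1 : half p (p • n + m) = n + half p m := by
        ext i
        simp only [half_apply, Finsupp.coe_add, Finsupp.coe_smul, Pi.add_apply, Pi.smul_apply,
          smul_eq_mul]
        rw [Nat.add_comm, Nat.add_mul_div_left _ _ hp.out.pos, Nat.add_comm]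
      rw [h1]
      by_cases h : m = p • half p m
      · rw [if_pos h, if_pos, monomial_mul, one_mul]
        rw [smul_add, ← h]
      · rw [if_neg h, if_neg, mul_zero]
        intro h'
        apply h
        rw [smul_add] at h'
        exact add_left_cancel h'

lemma Φ0_mem (d : Fin 4 →₀ ℕ) (hd : ∀ i, d i ≤ 1) (c : (@P0' p _)) :
    (@Φ0' p _) (c * monomial d 1) ∈ Ideal.span {(monomial d 1 : (@P0' p _))} := by
  induction c using ind with
  | hs c f hf => rw [smul_mul_assoc, map_smul]; exact Submodule.smul_of_tower_mem _ _ hf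
  | ha f g hf hg => rw [add_mul, map_add]; exact Ideal.add_mem _ hf hg
  | hm m =>
    rw [monomial_mul, one_mul, Φ0_monomial]
    by_cases h : m + d = p • half p (m + d)
    · rw [if_pos h]
      rw [Ideal.mem_span_singleton]
      have hle : d ≤ half p (m + d) := by
        intro i
        have h1 := DFunLike.congr_fun h i
        have h2 := hd i
        simp only [Finsupp.coe_add, Pi.add_apply, Finsupp.coe_smul, Pi.smul_apply,
          smul_eq_mul] at h1
        rcases Nat.eq_zero_or_pos (half p (m + d) i) with h3 | h3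
        · rw [h3] at h1 ⊢
          omega
        · omega
      refine ⟨monomial (half p (m + d) - d) 1, ?_⟩
      rw [monomial_mul, one_mul, add_tsub_cancel_of_le hle]
    · rw [if_neg h]; exact Ideal.zero_mem _

/-- the squarefree monomial ideal `(xy, xz, yz, u)` -/
def b0'  : Ideal (@P0' p _) := Ideal.span {X 0 * X 1, X 0 * X 2, X 1 * X 2, X 3}

lemma XX (i j : Fin 4) : (X i * X j : (@P0' p _)) = monomial (Finsupp.single i 1 + Finsupp.single j 1) 1 := by
  rw [X, X, monomial_mul, one_mul]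

lemma single_le (i : Fin 4) : ∀ k, (Finsupp.single i 1 : Fin 4 →₀ ℕ) k ≤ 1 := by
  intro k
  rw [Finsupp.single_apply]
  split_ifs <;> omega

lemma single2_le (i j : Fin 4) (h : i ≠ j) :
    ∀ k, (Finsupp.single i 1 + Finsupp.single j 1 : Fin 4 →₀ ℕ) k ≤ 1 := by
  intro k
  rw [Finsupp.add_apply, Finsupp.single_apply, Finsupp.single_apply]
  split_ifs with h1 h2
  · exact absurd (h1.trans h2.symm) h
  all_goals omega

lemma Φ0_u (c : (@P0' p _)) : ∃ d, (@Φ0' p _) (c * X 3) = d * X 3 := by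
  have := Φ0_mem (Finsupp.single 3 1) (single_le 3) c
  rw [Ideal.mem_span_singleton'] at this
  obtain ⟨d, hd⟩ := this
  exact ⟨d, hd.symm⟩

lemma Φ0_b' (f : (@P0' p _)) (hf : f ∈ (@b0' p _)) : ∀ c, (@Φ0' p _) (c * f) ∈ (@b0' p _) := by
  rw [b0'] at hf
  induction hf using Submodule.span_induction with
  | mem x h =>
    intro c
    rcases h with rfl | rfl | rfl | rfl
    · rw [XX]
      refine (Ideal.span_le.mpr ?_) (Φ0_mem _ (single2_le 0 1 (by decide)) c)
      rw [← XX]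
      exact Set.singleton_subset_iff.mpr (Ideal.subset_span (by simp))
    · rw [XX]
      refine (Ideal.span_le.mpr ?_) (Φ0_mem _ (single2_le 0 2 (by decide)) c)
      rw [← XX]
      exact Set.singleton_subset_iff.mpr (Ideal.subset_span (by simp))
    · rw [XX]
      refine (Ideal.span_le.mpr ?_) (Φ0_mem _ (single2_le 1 2 (by decide)) c)
      rw [← XX]
      exact Set.singleton_subset_iff.mpr (Ideal.subset_span (by simp))
    · refine (Ideal.span_le.mpr ?_) (Φ0_mem _ (single_le 3) c)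
      exact Set.singleton_subset_iff.mpr (Ideal.subset_span (by simp [X]))
  | zero => intro c; simp
  | add x y _ _ hx hy => intro c; rw [mul_add, map_add]; exact Ideal.add_mem _ (hx c) (hy c)
  | smul a x _ hx => intro c; rw [smul_eq_mul, ← mul_assoc]; exact hx (c * a)

/-! localization -/

abbrev P'  := Localization.AtPrime (@m0' p _)

lemma alg_inj : Function.Injective (algebraMap (@P0' p _) (@P' p _)) :=
  IsLocalization.injective (M := ((@m0' p _)).primeCompl) (@P' p _) ((@m0' p _)).primeCompl_le_nonZeroDivisors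

abbrev mk (a : (@P0' p _)) (s : ((@m0' p _)).primeCompl) : (@P' p _) := IsLocalization.mk' (@P' p _) a s

lemma mk_eq_iff (a b : (@P0' p _)) (s t : ((@m0' p _)).primeCompl) : mk a s = mk b t ↔ (t : (@P0' p _)) * a = s * b := by
  rw [IsLocalization.mk'_eq_iff_eq]
  exact alg_inj.eq_iff

lemma pp (p : ℕ) [hp : Fact p.Prime] (R : Type) [CommRing R] (s : R) :
    s ^ p = s ^ (p - 1) * s :=
  (pow_sub_one_mul hp.out.ne_zero s).symm

def Φ (w : (@P' p _)) : (@P' p _) :=
  mk ((@Φ0' p _) ((IsLocalization.sec ((@m0' p _)).primeCompl w).1 *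
    ((IsLocalization.sec ((@m0' p _)).primeCompl w).2 : (@P0' p _)) ^ (p - 1)))
    (IsLocalization.sec ((@m0' p _)).primeCompl w).2

lemma Φ_mk (a : (@P0' p _)) (s : ((@m0' p _)).primeCompl) : Φ (mk a s) = mk ((@Φ0' p _) (a * (s : (@P0' p _)) ^ (p - 1))) s := by
  have h := IsLocalization.mk'_sec (M := ((@m0' p _)).primeCompl) (@P' p _) (mk a s)
  set b := (IsLocalization.sec ((@m0' p _)).primeCompl (mk a s)).1 with hb
  set t := (IsLocalization.sec ((@m0' p _)).primeCompl (mk a s)).2 with ht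
  have h' : mk b t = mk a s := h
  rw [mk_eq_iff] at h'
  show mk ((@Φ0' p _) (b * (t : (@P0' p _)) ^ (p - 1))) t = _
  rw [mk_eq_iff]
  have e1 : (s : (@P0' p _)) * (@Φ0' p _) (b * (t : (@P0' p _)) ^ (p - 1)) = (@Φ0' p _) ((s : (@P0' p _)) ^ p * (b * (t : (@P0' p _)) ^ (p - 1))) :=
    (Φ0_mul _ _).symm
  have e2 : (t : (@P0' p _)) * (@Φ0' p _) (a * (s : (@P0' p _)) ^ (p - 1)) = (@Φ0' p _) ((t : (@P0' p _)) ^ p * (a * (s : (@P0' p _)) ^ (p - 1))) :=
    (Φ0_mul _ _).symm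
  rw [e1, e2]
  congr 1
  rw [pp p (@P0' p _) (s : (@P0' p _)), pp p (@P0' p _) (t : (@P0' p _))]
  calc (s : (@P0' p _)) ^ (p - 1) * s * (b * (t : (@P0' p _)) ^ (p - 1))
      = ((s : (@P0' p _)) ^ (p - 1) * (t : (@P0' p _)) ^ (p - 1)) * (s * b) := by ring
    _ = ((s : (@P0' p _)) ^ (p - 1) * (t : (@P0' p _)) ^ (p - 1)) * (t * a) := by rw [h']
    _ = _ := by ring

lemma Φ_alg (a : (@P0' p _)) : Φ (algebraMap (@P0' p _) (@P' p _) a) = algebraMap (@P0' p _) (@P' p _) ((@Φ0' p _) a) := by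
  have := Φ_mk a 1
  simp only [mk, IsLocalization.mk'_one, Submonoid.coe_one, one_pow, mul_one] at this
  exact this

lemma Φ_one : Φ (1 : (@P' p _)) = 1 := by
  have := Φ_alg (1 : (@P0' p _))
  rw [map_one, Φ0_one, map_one] at this
  exact this

lemma Φ_add (v w : (@P' p _)) : Φ (v + w) = Φ v + Φ w := by
  obtain ⟨a, s, rfl⟩ := IsLocalization.exists_mk'_eq ((@m0' p _)).primeCompl v
  obtain ⟨b, t, rfl⟩ := IsLocalization.exists_mk'_eq ((@m0' p _)).primeCompl w
  rw [← IsLocalization.mk'_add]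
  change Φ (mk _ _) = Φ (mk _ _) + Φ (mk _ _)
  rw [Φ_mk, Φ_mk, Φ_mk]
  rw [← IsLocalization.mk'_add]
  change mk _ _ = mk _ _
  rw [mk_eq_iff]
  rw [Submonoid.coe_mul]
  congr 1
  have e1 : (@Φ0' p _) (a * (s : (@P0' p _)) ^ (p - 1)) * t = (@Φ0' p _) ((t : (@P0' p _)) ^ p * (a * (s : (@P0' p _)) ^ (p - 1))) := by
    rw [Φ0_mul, mul_comm]
  have e2 : (@Φ0' p _) (b * (t : (@P0' p _)) ^ (p - 1)) * s = (@Φ0' p _) ((s : (@P0' p _)) ^ p * (b * (t : (@P0' p _)) ^ (p - 1))) := by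
    rw [Φ0_mul, mul_comm]
  rw [e1, e2, ← map_add]
  congr 1
  rw [pp p (@P0' p _) (s : (@P0' p _)), pp p (@P0' p _) (t : (@P0' p _))]
  ring

lemma Φ_mul (a b : (@P' p _)) : Φ (a ^ p * b) = a * Φ b := by
  obtain ⟨a, s, rfl⟩ := IsLocalization.exists_mk'_eq ((@m0' p _)).primeCompl a
  obtain ⟨b, t, rfl⟩ := IsLocalization.exists_mk'_eq ((@m0' p _)).primeCompl b
  rw [← IsLocalization.mk'_pow, ← IsLocalization.mk'_mul]
  change Φ (mk _ _) = mk _ _ * Φ (mk _ _)
  rw [Φ_mk, Φ_mk, ← IsLocalization.mk'_mul]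
  change mk _ _ = mk _ _
  rw [mk_eq_iff]
  rw [Submonoid.coe_mul, Submonoid.coe_mul]
  have e1 : a ^ p * b * ((((s ^ p : ((@m0' p _)).primeCompl) : (@P0' p _))) * (t : (@P0' p _))) ^ (p - 1)
      = (a * (s : (@P0' p _)) ^ (p - 1)) ^ p * (b * (t : (@P0' p _)) ^ (p - 1)) := by
    push_cast; ring
  rw [e1, Φ0_mul]
  push_cast
  rw [pp p (@P0' p _) (s : (@P0' p _))]
  ring

/-- the ideal `a` in the local ring `P` -/
def aP'  : Ideal (@P' p _) := ((@a0' p _)).map (algebraMap (@P0' p _) (@P' p _))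
def bP'  : Ideal (@P' p _) := ((@b0' p _)).map (algebraMap (@P0' p _) (@P' p _))

def gx'  : (@P' p _) := algebraMap (@P0' p _) (@P' p _) (X 0)
def gy'  : (@P' p _) := algebraMap (@P0' p _) (@P' p _) (X 1)
def gz'  : (@P' p _) := algebraMap (@P0' p _) (@P' p _) (X 2)
def gu'  : (@P' p _) := algebraMap (@P0' p _) (@P' p _) (X 3)

lemma u_reg' (f : (@P' p _)) (h : (@gu' p _) * f ∈ (@aP' p _)) : f ∈ (@aP' p _) := by
  obtain ⟨a, s, rfl⟩ := IsLocalization.exists_mk'_eq ((@m0' p _)).primeCompl f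
  rw [gu', ← IsLocalization.mk'_one (M := ((@m0' p _)).primeCompl) (@P' p _) (X 3), ← IsLocalization.mk'_mul,
    aP', IsLocalization.mk'_mem_map_algebraMap_iff] at h
  obtain ⟨w, hw, h⟩ := h
  rw [aP', IsLocalization.mk'_mem_map_algebraMap_iff]
  refine ⟨w, hw, ?_⟩
  apply u_reg
  have e : (X 3 * (w * a) : MvPolynomial (Fin 4) (ZMod p)) = w * (X 3 * a) := by ring
  rw [e]
  exact h

lemma Φ_u (c : (@P' p _)) : ∃ d, Φ ((@gu' p _) * c) = (@gu' p _) * d := by
  obtain ⟨a, s, rfl⟩ := IsLocalization.exists_mk'_eq ((@m0' p _)).primeCompl c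
  rw [gu', ← IsLocalization.mk'_one (M := ((@m0' p _)).primeCompl) (@P' p _) (X 3), ← IsLocalization.mk'_mul]
  change ∃ d, Φ (mk _ _) = _
  rw [Φ_mk]
  obtain ⟨d, hd⟩ := Φ0_u (a * (s : (@P0' p _)) ^ (p - 1))
  refine ⟨mk d s, ?_⟩
  rw [← IsLocalization.mk'_mul]
  change mk _ _ = mk _ _
  rw [mk_eq_iff]
  have : (X 3 * a * ((1 * s : ((@m0' p _)).primeCompl) : (@P0' p _)) ^ (p - 1)) = a * (s : (@P0' p _)) ^ (p - 1) * X 3 := by
    rw [one_mul]; ring
  rw [this, hd]
  push_cast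
  ring

lemma Φ_b (c : (@P' p _)) (h : c ∈ (@bP' p _)) : Φ c ∈ (@bP' p _) := by
  obtain ⟨a, s, rfl⟩ := IsLocalization.exists_mk'_eq ((@m0' p _)).primeCompl c
  rw [bP', IsLocalization.mk'_mem_map_algebraMap_iff] at h
  obtain ⟨w, hw, h⟩ := h
  change Φ (mk _ _) ∈ _
  rw [Φ_mk, bP', IsLocalization.mk'_mem_map_algebraMap_iff]
  refine ⟨w, hw, ?_⟩
  rw [← Φ0_mul]
  have : w ^ p * (a * (s : (@P0' p _)) ^ (p - 1)) = (w ^ (p - 1) * (s : (@P0' p _)) ^ (p - 1)) * (w * a) := by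
    rw [pp p (@P0' p _) w]; ring
  rw [this]
  exact Φ0_b' _ h _

lemma aP_eq : (@aP' p _) = Ideal.span {(@gx' p _) * (@gy' p _), (@gx' p _) * (@gz' p _), (@gy' p _) * ((@gz' p _) - (@gu' p _) ^ p)} := by
  rw [aP', a0', Ideal.map_span]
  congr 1
  simp only [Set.image_insert_eq, Set.image_singleton, map_mul, map_sub, map_pow, gx', gy', gz', gu']

lemma bP_eq : (@bP' p _) = Ideal.span {(@gx' p _) * (@gy' p _), (@gx' p _) * (@gz' p _), (@gy' p _) * (@gz' p _), (@gu' p _)} := by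
  rw [bP', b0', Ideal.map_span]
  congr 1
  simp only [Set.image_insert_eq, Set.image_singleton, map_mul, gx', gy', gz', gu']

lemma aP_le_bP : (@aP' p _) ≤ (@bP' p _) := by
  rw [aP_eq, bP_eq, Ideal.span_le]
  rintro f (rfl | rfl | rfl)
  · exact Ideal.subset_span (by simp)
  · exact Ideal.subset_span (by simp)
  · have : (@gy' p _) * ((@gz' p _) - (@gu' p _) ^ p) = (@gy' p _) * (@gz' p _) - ((@gy' p _) * (@gu' p _) ^ (p - 1)) * (@gu' p _) := by
      rw [pp p (@P' p _) (@gu' p _)]; ring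
    rw [this]
    refine Ideal.sub_mem _ (Ideal.subset_span (by simp)) (Ideal.mul_mem_left _ _ ?_)
    exact Ideal.subset_span (by simp)

lemma mem_bP (f : (@P' p _)) (hf : f ∈ (@bP' p _)) : ∃ a ∈ (@aP' p _), ∃ h, f = a + (@gu' p _) * h := by
  rw [bP_eq] at hf
  induction hf using Submodule.span_induction with
  | mem x h =>
    rcases h with rfl | rfl | rfl | rfl
    · refine ⟨_, ?_, 0, by rw [mul_zero, add_zero]⟩
      rw [aP_eq]; exact Ideal.subset_span (by simp)
    · refine ⟨_, ?_, 0, by rw [mul_zero, add_zero]⟩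
      rw [aP_eq]; exact Ideal.subset_span (by simp)
    · refine ⟨(@gy' p _) * ((@gz' p _) - (@gu' p _) ^ p), ?_, (@gy' p _) * (@gu' p _) ^ (p - 1), by rw [pp p (@P' p _) (@gu' p _)]; ring⟩
      rw [aP_eq]; exact Ideal.subset_span (by simp)
    · exact ⟨0, Ideal.zero_mem _, 1, by ring⟩
  | zero => exact ⟨0, Ideal.zero_mem _, 0, by ring⟩
  | add x y _ _ hx hy =>
    obtain ⟨a, ha, h, rfl⟩ := hx
    obtain ⟨a', ha', h', rfl⟩ := hy
    exact ⟨a + a', Ideal.add_mem _ ha ha', h + h', by ring⟩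
  | smul c x _ hx =>
    obtain ⟨a, ha, h, rfl⟩ := hx
    exact ⟨c * a, Ideal.mul_mem_left _ _ ha, c * h, by rw [smul_eq_mul]; ring⟩




/-- the ring `T = P ×_{P/a} P` -/
def TS'  : Subalgebra (@P' p _) ((@P' p _) × (@P' p _)) where
  carrier := {w | w.1 - w.2 ∈ (@aP' p _)}
  mul_mem' := by
    intro v w hv hw
    have : (v * w).1 - (v * w).2 = v.1 * (w.1 - w.2) + w.2 * (v.1 - v.2) := by
      simp only [Prod.fst_mul, Prod.snd_mul]; ring
    show (v * w).1 - (v * w).2 ∈ (@aP' p _)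
    rw [this]
    exact Ideal.add_mem _ (Ideal.mul_mem_left _ _ hw) (Ideal.mul_mem_left _ _ hv)
  add_mem' := by
    intro v w hv hw
    have : (v + w).1 - (v + w).2 = (v.1 - v.2) + (w.1 - w.2) := by
      simp only [Prod.fst_add, Prod.snd_add]; ring
    show (v + w).1 - (v + w).2 ∈ (@aP' p _)
    rw [this]
    exact Ideal.add_mem _ hv hw
  algebraMap_mem' := by
    intro r
    show r - r ∈ (@aP' p _)
    rw [sub_self]; exact Ideal.zero_mem _

lemma mem_T (w : (@P' p _) × (@P' p _)) : w ∈ (@TS' p _) ↔ w.1 - w.2 ∈ (@aP' p _) := Iff.rfl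

/-- the ring `T`, as a type -/
def T'  : Type := ↥(@TS' p _)

instance : CommRing (@T' p _) := inferInstanceAs (CommRing ↥(@TS' p _))

/-- the inclusion `T → P × P` -/
def vl (w : (@T' p _)) : (@P' p _) × (@P' p _) := Subtype.val (p := (· ∈ (@TS' p _))) w

/-- the inclusion `T → P × P` as a ring homomorphism -/
def vlHom : (@T' p _) →+* (@P' p _) × (@P' p _) := ((@TS' p _)).val.toRingHom

lemma T_ext {v w : (@T' p _)} (h1 : (vl v).1 = (vl w).1) (h2 : (vl v).2 = (vl w).2) : v = w :=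
  Subtype.ext (Prod.ext h1 h2)

lemma vl_mem (w : (@T' p _)) : (vl w).1 - (vl w).2 ∈ (@aP' p _) := Subtype.property (p := (· ∈ (@TS' p _))) w

/-- constructor of elements of `T` -/
def mkT (v : (@P' p _) × (@P' p _)) (h : v.1 - v.2 ∈ (@aP' p _)) : (@T' p _) := (⟨v, h⟩ : ↥(@TS' p _))

/-- the diagonal `P → T` -/
def dg : (@P' p _) →+* (@T' p _) := algebraMap (@P' p _) ↥(@TS' p _)

lemma vlHom_apply (w : (@T' p _)) : vlHom w = vl w := rfl
lemma vl_add (v w : (@T' p _)) : vl (v + w) = vl v + vl w := by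
  rw [← vlHom_apply, map_add]; rfl
lemma vl_sub (v w : (@T' p _)) : vl (v - w) = vl v - vl w := by
  rw [← vlHom_apply, map_sub]; rfl
lemma vl_mul (v w : (@T' p _)) : vl (v * w) = vl v * vl w := by
  rw [← vlHom_apply, map_mul]; rfl
lemma vl_pow (v : (@T' p _)) (n : ℕ) : vl (v ^ n) = vl v ^ n := by
  rw [← vlHom_apply, map_pow]; rfl
lemma vl_zero : vl (0 : (@T' p _)) = 0 := by
  rw [← vlHom_apply, map_zero]
lemma vl_one : vl (1 : (@T' p _)) = 1 := by
  rw [← vlHom_apply, map_one]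
lemma vl_dg (f : (@P' p _)) : vl (dg f) = (f, f) := rfl
lemma vl_mkT (v : (@P' p _) × (@P' p _)) (h : v.1 - v.2 ∈ (@aP' p _)) : vl (mkT v h) = v := rfl

lemma TS_noeth : IsNoetherianRing ↥(@TS' p _) := by
  have : IsNoetherian (@P' p _) (@TS' p _) := isNoetherian_submodule' (Subalgebra.toSubmodule (@TS' p _))
  exact isNoetherian_of_tower (@P' p _) this

instance : IsNoetherianRing (@T' p _) := TS_noeth

instance : Nontrivial (@T' p _) := ⟨⟨0, 1, by
  intro h
  have := congrArg vl h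
  rw [vl_zero, vl_one] at this
  exact zero_ne_one (congrArg Prod.fst this)⟩⟩

attribute [irreducible] T' vl vlHom dg mkT

lemma aP_le_max : (@aP' p _) ≤ IsLocalRing.maximalIdeal (@P' p _) := by
  rw [aP', ← Localization.AtPrime.map_eq_maximalIdeal]
  apply Ideal.map_mono
  rw [a0', Ideal.span_le]
  rintro f (rfl | rfl | rfl) <;> simp [m0']

lemma unit_iff (w : (@T' p _)) : IsUnit w ↔ IsUnit (vl w).1 := by
  constructor
  · intro h
    have h2 := (h.map vlHom).map (RingHom.fst (@P' p _) (@P' p _))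
    rw [vlHom_apply] at h2
    exact h2
  · intro h
    have hw : (vl w).1 - (vl w).2 ∈ (@aP' p _) := vl_mem w
    have h2 : IsUnit (vl w).2 := by
      by_contra hn
      have hn' : (vl w).2 ∈ IsLocalRing.maximalIdeal (@P' p _) := (IsLocalRing.mem_maximalIdeal _).mpr hn
      have := Ideal.add_mem _ (aP_le_max hw) hn'
      rw [sub_add_cancel] at this
      exact (IsLocalRing.mem_maximalIdeal _).mp this h
    obtain ⟨a, ha⟩ := h
    obtain ⟨b, hb⟩ := h2
    have hinv : (↑a⁻¹ : (@P' p _)) - (↑b⁻¹ : (@P' p _)) ∈ (@aP' p _) := by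
      have : (↑a⁻¹ : (@P' p _)) - ↑b⁻¹ = - (↑a⁻¹ * ↑b⁻¹) * ((a : (@P' p _)) - b) := by
        have h1 : (a : (@P' p _)) * ↑a⁻¹ = 1 := a.mul_inv
        have h2 : (b : (@P' p _)) * ↑b⁻¹ = 1 := b.mul_inv
        linear_combination (↑b⁻¹ : (@P' p _)) * h1 - (↑a⁻¹ : (@P' p _)) * h2
      rw [this]
      refine Ideal.mul_mem_left _ _ ?_
      rw [ha, hb]; exact hw
    refine IsUnit.of_mul_eq_one (mkT (↑a⁻¹, ↑b⁻¹) hinv) ?_
    apply T_ext
    · rw [vl_mul, vl_mkT, vl_one, Prod.fst_mul, ← ha]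
      exact a.mul_inv
    · rw [vl_mul, vl_mkT, vl_one, Prod.snd_mul, ← hb]
      exact b.mul_inv

instance : IsLocalRing (@T' p _) := by
  refine IsLocalRing.of_nonunits_add ?_
  intro a b ha hb
  rw [mem_nonunits_iff, unit_iff] at *
  intro h
  rw [vl_add, Prod.fst_add] at h
  rcases IsLocalRing.isUnit_or_isUnit_of_isUnit_add h with h | h
  · exact ha h
  · exact hb h

instance : CharP (@P' p _) p := charP_of_injective_algebraMap (R := (@P0' p _)) (A := (@P' p _)) alg_inj p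

lemma dg_inj : Function.Injective (dg : (@P' p _) → (@T' p _)) := by
  intro f g h
  have h1 := congrArg vl h
  rw [vl_dg, vl_dg] at h1
  exact congrArg Prod.fst h1

instance : CharP (@T' p _) p := charP_of_injective_ringHom dg_inj p

/-- the element `u` of `T` -/
def uT'  : (@T' p _) := dg (@gu' p _)

lemma vl_uT : vl (@uT' p _) = ((@gu' p _), (@gu' p _)) := by rw [uT', vl_dg]

lemma gu_ne : (@gu' p _) ≠ 0 := by
  intro h
  exact MvPolynomial.X_ne_zero 3 (alg_inj (h.trans (map_zero _).symm))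

lemma gmem (i : Fin 4) : algebraMap (@P0' p _) (@P' p _) (X i) ∈ IsLocalRing.maximalIdeal (@P' p _) := by
  rw [← Localization.AtPrime.map_eq_maximalIdeal]
  apply Ideal.mem_map_of_mem
  simp [m0']

lemma uT_mem : (@uT' p _) ∈ IsLocalRing.maximalIdeal (@T' p _) := by
  rw [IsLocalRing.mem_maximalIdeal, mem_nonunits_iff, unit_iff, vl_uT]
  exact (IsLocalRing.mem_maximalIdeal _).mp (gmem 3)

lemma uT_nzd : (@uT' p _) ∈ nonZeroDivisors (@T' p _) := by
  rw [mem_nonZeroDivisors_iff_right]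
  intro w hw
  have h0 := congrArg vl hw
  rw [vl_mul, vl_uT, vl_zero] at h0
  have h1 : (vl w).1 * (@gu' p _) = 0 := congrArg Prod.fst h0
  have h2 : (vl w).2 * (@gu' p _) = 0 := congrArg Prod.snd h0
  apply T_ext
  · rw [vl_zero]; exact (mul_eq_zero.mp h1).resolve_right gu_ne
  · rw [vl_zero]; exact (mul_eq_zero.mp h2).resolve_right gu_ne

lemma Φ_zero : Φ (0 : (@P' p _)) = 0 := by
  have := Φ_add (0 : (@P' p _)) 0
  rw [add_zero] at this
  exact left_eq_add.mp this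

lemma Φ_sub (v w : (@P' p _)) : Φ (v - w) = Φ v - Φ w := by
  have := Φ_add (v - w) w
  rw [sub_add_cancel] at this
  rw [this]; ring

/-- key lemma: image of `c * w` under the splitting -/
lemma key (I : Ideal (@T' p _)) (w : (@T' p _))
    (hw : w ∈ Ideal.span ((fun a : (@T' p _) => a ^ p) '' (I : Set (@T' p _))) ⊔ Ideal.span {(@uT' p _)}) :
    ∀ c : (@P' p _) × (@P' p _), c.1 - c.2 ∈ (@bP' p _) → ∃ i ∈ I, ∃ v : (@P' p _) × (@P' p _),
      Φ (c.1 * (vl w).1) = (vl i).1 + (@gu' p _) * v.1 ∧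
      Φ (c.2 * (vl w).2) = (vl i).2 + (@gu' p _) * v.2 := by
  rw [← Ideal.span_union] at hw
  induction hw using Submodule.span_induction with
  | mem x h =>
    intro c hc
    rcases h with ⟨a, ha, rfl⟩ | h
    · have h1 : Φ c.1 - Φ c.2 ∈ (@bP' p _) := by rw [← Φ_sub]; exact Φ_b _ hc
      obtain ⟨a', ha', h, hh⟩ := mem_bP _ h1
      have ht : ((Φ c.1, Φ c.1 - a') : (@P' p _) × (@P' p _)).1 - ((Φ c.1, Φ c.1 - a') : (@P' p _) × (@P' p _)).2 ∈ (@aP' p _) := by
        show Φ c.1 - (Φ c.1 - a') ∈ (@aP' p _)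
        rw [sub_sub_cancel]; exact ha'
      refine ⟨a * mkT _ ht, I.mul_mem_right _ ha, (0, - ((vl a).2 * h)), ?_, ?_⟩
      · simp only [vl_pow, vl_mul, vl_mkT, Prod.fst_mul, Prod.pow_fst]
        rw [mul_comm c.1, Φ_mul]; ring
      · simp only [vl_pow, vl_mul, vl_mkT, Prod.snd_mul, Prod.pow_snd]
        rw [mul_comm c.2, Φ_mul]
        linear_combination (- (vl a).2) * hh
    · rw [Set.mem_singleton_iff] at h
      subst h
      obtain ⟨d1, hd1⟩ := Φ_u c.1
      obtain ⟨d2, hd2⟩ := Φ_u c.2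
      refine ⟨0, I.zero_mem, (d1, d2), ?_, ?_⟩
      · rw [vl_uT, vl_zero, Prod.fst_zero, mul_comm, hd1, zero_add]
      · rw [vl_uT, vl_zero, Prod.snd_zero, mul_comm, hd2, zero_add]
  | zero =>
    intro c _
    refine ⟨0, I.zero_mem, (0, 0), ?_, ?_⟩
    · rw [vl_zero, Prod.fst_zero, mul_zero, Φ_zero, mul_zero, add_zero]
    · rw [vl_zero, Prod.snd_zero, mul_zero, Φ_zero, mul_zero, add_zero]
  | add x y _ _ hx hy =>
    intro c hc
    obtain ⟨i, hi, v, h1, h2⟩ := hx c hc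
    obtain ⟨i', hi', v', h1', h2'⟩ := hy c hc
    refine ⟨i + i', I.add_mem hi hi', (v.1 + v'.1, v.2 + v'.2), ?_, ?_⟩
    · rw [vl_add, vl_add, Prod.fst_add, Prod.fst_add, mul_add, Φ_add, h1, h1']; ring
    · rw [vl_add, vl_add, Prod.snd_add, Prod.snd_add, mul_add, Φ_add, h2, h2']; ring
  | smul a x _ hx =>
    intro c hc
    have hc' : (c.1 * (vl a).1) - (c.2 * (vl a).2) ∈ (@bP' p _) := by
      have : (c.1 * (vl a).1) - (c.2 * (vl a).2) =
        c.1 * ((vl a).1 - (vl a).2) + (vl a).2 * (c.1 - c.2) := by ring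
      rw [this]
      exact Ideal.add_mem _ (Ideal.mul_mem_left _ _ (aP_le_bP (vl_mem a)))
        (Ideal.mul_mem_left _ _ hc)
    obtain ⟨i, hi, v, h1, h2⟩ := hx (c.1 * (vl a).1, c.2 * (vl a).2) hc'
    refine ⟨i, hi, v, ?_, ?_⟩
    · rw [← h1, smul_eq_mul, vl_mul, Prod.fst_mul, mul_assoc]
    · rw [← h2, smul_eq_mul, vl_mul, Prod.snd_mul, mul_assoc]

lemma fc_T (I : Ideal (@T' p _)) (hu : (@uT' p _) ∈ I) (r : (@T' p _))
    (hr : r ^ p ∈ Ideal.span ((fun a : (@T' p _) => a ^ p) '' (I : Set (@T' p _))) ⊔ Ideal.span {(@uT' p _)}) : r ∈ I := by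
  obtain ⟨i, hi, v, h1, h2⟩ := key I _ hr (1, 1) (by simp)
  have e1 : (vl r).1 = (vl i).1 + (@gu' p _) * v.1 := by
    rw [← h1, vl_pow, Prod.pow_fst, mul_comm, Φ_mul, Φ_one, mul_one]
  have e2 : (vl r).2 = (vl i).2 + (@gu' p _) * v.2 := by
    rw [← h2, vl_pow, Prod.pow_snd, mul_comm, Φ_mul, Φ_one, mul_one]
  have hv : v.1 - v.2 ∈ (@aP' p _) := by
    apply u_reg'
    have : (@gu' p _) * (v.1 - v.2) = ((vl r).1 - (vl r).2) - ((vl i).1 - (vl i).2) := by
      rw [e1, e2]; ring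
    rw [this]
    exact Ideal.sub_mem _ (vl_mem r) (vl_mem i)
  have : r = i + (@uT' p _) * mkT v hv := by
    apply T_ext
    · rw [vl_add, vl_mul, vl_uT, vl_mkT]; exact e1
    · rw [vl_add, vl_mul, vl_uT, vl_mkT]; exact e2
  rw [this]
  exact I.add_mem hi (I.mul_mem_right _ hu)

omit hp in
lemma fc_quot {R : Type} [CommRing R] (u : R)
    (H : ∀ I : Ideal R, u ∈ I → ∀ r : R,
      r ^ p ∈ Ideal.span ((fun a : R => a ^ p) '' (I : Set R)) ⊔ Ideal.span {u} → r ∈ I)
    (I : Ideal (R ⧸ Ideal.span {u})) (r : R ⧸ Ideal.span {u})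
    (hr : r ^ p ∈ Ideal.span ((fun a => a ^ p) '' (I : Set (R ⧸ Ideal.span {u})))) : r ∈ I := by
  obtain ⟨s, rfl⟩ := Ideal.Quotient.mk_surjective r
  have h1 : Ideal.span ((fun a => a ^ p) '' (I : Set (R ⧸ Ideal.span {u}))) ≤
      (Ideal.span ((fun a : R => a ^ p) ''
        ((I.comap (Ideal.Quotient.mk (Ideal.span {u})) : Ideal R) : Set R))).map
          (Ideal.Quotient.mk (Ideal.span {u})) := by
    rw [Ideal.span_le]
    rintro _ ⟨a, ha, rfl⟩
    obtain ⟨b, rfl⟩ := Ideal.Quotient.mk_surjective a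
    show (Ideal.Quotient.mk (Ideal.span {u})) b ^ p ∈ _
    rw [← map_pow]
    apply Ideal.mem_map_of_mem
    exact Ideal.subset_span ⟨b, ha, rfl⟩
  have h2 := h1 hr
  rw [← map_pow, Ideal.mem_map_iff_of_surjective _ Ideal.Quotient.mk_surjective] at h2
  obtain ⟨t, ht, hts⟩ := h2
  have h3 : s ^ p - t ∈ Ideal.span {u} := Ideal.Quotient.eq.mp hts.symm
  have hu : u ∈ I.comap (Ideal.Quotient.mk (Ideal.span {u})) := by
    rw [Ideal.mem_comap]
    have : (Ideal.Quotient.mk (Ideal.span {u})) u = 0 :=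
      Ideal.Quotient.eq_zero_iff_mem.mpr (Ideal.subset_span rfl)
    rw [this]; exact I.zero_mem
  refine H (I.comap (Ideal.Quotient.mk (Ideal.span {u}))) hu s ?_
  have : s ^ p = t + (s ^ p - t) := by ring
  rw [this]
  exact Ideal.add_mem _ (Ideal.mem_sup_left ht) (Ideal.mem_sup_right h3)

omit hp in
lemma fc_quot_pow {R : Type} [CommRing R] (u : R)
    (H : ∀ I : Ideal R, u ∈ I → ∀ r : R,
      r ^ p ∈ Ideal.span ((fun a : R => a ^ p) '' (I : Set R)) ⊔ Ideal.span {u} → r ∈ I)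
    (I : Ideal (R ⧸ Ideal.span {u})) (e : ℕ) : ∀ (r : R ⧸ Ideal.span {u}),
    r ^ (p ^ e) ∈ Ideal.span ((fun a => a ^ (p ^ e)) '' (I : Set (R ⧸ Ideal.span {u}))) →
      r ∈ I := by
  induction e with
  | zero =>
    intro r hr
    simp only [pow_zero, pow_one, Set.image_id', Ideal.span_eq] at hr
    exact hr
  | succ e ih =>
    intro r hr
    apply ih
    apply fc_quot u H
    rw [← pow_mul, ← pow_succ]
    refine (Ideal.span_le.mpr ?_) hr
    rintro _ ⟨a, ha, rfl⟩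
    apply Ideal.subset_span
    refine ⟨a ^ (p ^ e), Ideal.subset_span ⟨a, ha, rfl⟩, ?_⟩
    show (a ^ (p ^ e)) ^ p = a ^ p ^ (e + 1)
    rw [← pow_mul, ← pow_succ]



/-! dimension -/

def kill'  (n : ℕ) : (@P0' p _) →ₐ[ZMod p] (@P0' p _) := aeval (fun j : Fin 4 => if j.val < n then 0 else X j)

lemma kill_X (n : ℕ) (j : Fin 4) : (@kill' p _) n (X j) = if j.val < n then 0 else X j := by
  simp [kill']

def J'  (n : ℕ) : Ideal (@P0' p _) := RingHom.ker ((@kill' p _) n)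

instance (n : ℕ) : ((@J' p _) n).IsPrime := RingHom.ker_isPrime _

lemma J_lt (n : ℕ) (hn : n < 4) : (@J' p _) n < (@J' p _) (n + 1) := by
  refine lt_of_le_of_ne ?_ ?_
  · intro f hf
    have hf' : (@kill' p _) n f = 0 := hf
    have hc : ((@kill' p _) (n + 1)).comp ((@kill' p _) n) = (@kill' p _) (n + 1) := by
      apply MvPolynomial.algHom_ext
      intro i
      rw [AlgHom.comp_apply, kill_X, kill_X]
      split_ifs with h1 h2 h2
      · simp
      · omega
      · rw [kill_X, if_pos h2]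
      · rw [kill_X, if_neg h2]
    have : (@kill' p _) (n + 1) f = 0 := by
      rw [← hc, AlgHom.comp_apply, hf', map_zero]
    exact this
  · intro h
    have h1 : (X ⟨n, hn⟩ : (@P0' p _)) ∈ (@J' p _) (n + 1) := by
      show (@kill' p _) (n + 1) (X ⟨n, hn⟩) = 0
      rw [kill_X, if_pos (Nat.lt_succ_self n)]
    rw [← h] at h1
    have h2 : (@kill' p _) n (X ⟨n, hn⟩) = 0 := h1
    rw [kill_X, if_neg (lt_irrefl n)] at h2
    exact MvPolynomial.X_ne_zero _ h2

lemma J_height (n : ℕ) (hn : n ≤ 4) : (n : ℕ∞) ≤ ((@J' p _) n).height := by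
  induction n with
  | zero => simp
  | succ n ih =>
    have h1 := ih (by omega)
    have h2 := Ideal.height_add_one_le_of_lt_of_isPrime (J_lt (p := p) n (by omega))
    push_cast
    exact (add_le_add_left h1 1).trans h2

lemma J_le : (@J' p _) 4 ≤ (@m0' p _) := by
  intro f hf
  have h1 : (@kill' p _) 4 f = 0 := hf
  have h2 : (constantCoeff : (@P0' p _) →+* ZMod p).comp ((@kill' p _) 4).toRingHom = constantCoeff := by
    apply MvPolynomial.ringHom_ext
    · intro r; simp [kill']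
    · intro i
      rw [RingHom.comp_apply]
      show constantCoeff ((@kill' p _) 4 (X i)) = _
      rw [kill_X, if_pos i.isLt]
      simp
  show constantCoeff f = 0
  rw [← h2, RingHom.comp_apply]
  show constantCoeff ((@kill' p _) 4 f) = 0
  rw [h1, map_zero]

lemma dimP_ge : (4 : WithBot ℕ∞) ≤ ringKrullDim (@P' p _) := by
  rw [IsLocalization.AtPrime.ringKrullDim_eq_height (@m0' p _) (@P' p _)]
  have h1 := J_height (p := p) 4 le_rfl
  have h2 := Ideal.height_mono (J_le (p := p))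
  have h3 : ((4 : ℕ) : ℕ∞) ≤ ((@m0' p _)).height := h1.trans h2
  exact WithBot.coe_le_coe.mpr h3

def fstT'  : (@T' p _) →+* (@P' p _) := (RingHom.fst (@P' p _) (@P' p _)).comp vlHom
def sndT'  : (@T' p _) →+* (@P' p _) := (RingHom.snd (@P' p _) (@P' p _)).comp vlHom

lemma fstT_apply (w : (@T' p _)) : (@fstT' p _) w = (vl w).1 := by
  rw [fstT', RingHom.comp_apply, vlHom_apply]; rfl
lemma sndT_apply (w : (@T' p _)) : (@sndT' p _) w = (vl w).2 := by
  rw [sndT', RingHom.comp_apply, vlHom_apply]; rfl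

lemma fstT_surj : Function.Surjective (@fstT' p _) := fun a => ⟨dg a, by rw [fstT_apply, vl_dg]⟩
lemma sndT_surj : Function.Surjective (@sndT' p _) := fun a => ⟨dg a, by rw [sndT_apply, vl_dg]⟩

/-- the system of parameters -/
def yy'  : Fin 4 → (@T' p _) :=
  ![dg ((@gx' p _) - (@gy' p _)), dg (@gz' p _), dg ((@gu' p _) ^ 2), dg ((@gx' p _) * (@gy' p _))]

lemma yy0 : (@yy' p _) 0 = dg ((@gx' p _) - (@gy' p _)) := rfl
lemma yy1 : (@yy' p _) 1 = dg (@gz' p _) := rfl
lemma yy2 : (@yy' p _) 2 = dg ((@gu' p _) ^ 2) := rfl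
lemma yy3 : (@yy' p _) 3 = dg ((@gx' p _) * (@gy' p _)) := rfl

lemma yy_mem (i : Fin 4) : (@yy' p _) i ∈ Ideal.span (Set.range (@yy' p _)) := Ideal.subset_span ⟨i, rfl⟩

lemma m0_eq : (@m0' p _) = Ideal.span {X 0, X 1, X 2, X 3} := by
  apply le_antisymm
  · intro f hf
    have h0 : constantCoeff f = 0 := hf
    have h1 := mem_ideal_span_X_image (R := ZMod p) (x := f) (s := (Set.univ : Set (Fin 4)))
    have h2 : (X '' (Set.univ : Set (Fin 4)) : Set (@P0' p _)) = {X 0, X 1, X 2, X 3} := by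
      ext g
      simp only [Set.image_univ, Set.mem_range, Fin.exists_fin_succ, Set.mem_insert_iff,
        Set.mem_singleton_iff]
      simp [eq_comm]
    rw [h2] at h1
    rw [h1]
    intro m hm
    by_contra hcon
    push Not at hcon
    have : m = 0 := by ext i; simpa using hcon i (Set.mem_univ i)
    subst this
    rw [mem_support_iff] at hm
    exact hm h0
  · rw [Ideal.span_le]
    rintro f (rfl | rfl | rfl | rfl) <;> simp [m0']

lemma max_P : IsLocalRing.maximalIdeal (@P' p _) = Ideal.span {(@gx' p _), (@gy' p _), (@gz' p _), (@gu' p _)} := by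
  rw [← Localization.AtPrime.map_eq_maximalIdeal]
  have h1 : Ideal.map (algebraMap (@P0' p _) (@P' p _)) (@m0' p _) = Ideal.map (algebraMap (@P0' p _) (@P' p _))
      (Ideal.span {X 0, X 1, X 2, X 3}) := congrArg _ m0_eq
  refine h1.trans ?_
  rw [Ideal.map_span]
  congr 1
  simp only [Set.image_insert_eq, Set.image_singleton, gx', gy', gz', gu']

lemma x_rad : dg (@gx' p _) ∈ (Ideal.span (Set.range (@yy' p _))).radical := by
  refine ⟨2, ?_⟩
  have : dg (@gx' p _) ^ 2 = dg (@gx' p _) * (@yy' p _) 0 + (@yy' p _) 3 := by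
    rw [yy0, yy3, map_sub, map_mul]; ring
  rw [this]
  exact Ideal.add_mem _ (Ideal.mul_mem_left _ _ (yy_mem 0)) (yy_mem 3)

lemma y_rad : dg (@gy' p _) ∈ (Ideal.span (Set.range (@yy' p _))).radical := by
  have : dg (@gy' p _) = dg (@gx' p _) - (@yy' p _) 0 := by
    rw [yy0, map_sub]; ring
  rw [this]
  exact Ideal.sub_mem _ x_rad (Ideal.le_radical (yy_mem 0))

lemma z_rad : dg (@gz' p _) ∈ (Ideal.span (Set.range (@yy' p _))).radical :=
  Ideal.le_radical (yy_mem 1)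

lemma u_rad : dg (@gu' p _) ∈ (Ideal.span (Set.range (@yy' p _))).radical := by
  refine ⟨2, ?_⟩
  have : dg (@gu' p _) ^ 2 = (@yy' p _) 2 := by
    rw [yy2, map_pow]
  rw [this]
  exact yy_mem 2

lemma diag_rad (f : (@P' p _)) (hf : f ∈ IsLocalRing.maximalIdeal (@P' p _)) :
    dg f ∈ (Ideal.span (Set.range (@yy' p _))).radical := by
  have : IsLocalRing.maximalIdeal (@P' p _) ≤ (Ideal.span (Set.range (@yy' p _))).radical.comap (dg) := by
    rw [max_P, Ideal.span_le]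
    rintro g (rfl | rfl | rfl | rfl)
    · exact x_rad
    · exact y_rad
    · exact z_rad
    · exact u_rad
  exact this hf

lemma max_le : IsLocalRing.maximalIdeal (@T' p _) ≤ (Ideal.span (Set.range (@yy' p _))).radical := by
  intro w hw
  have h1 : (vl w).1 ∈ IsLocalRing.maximalIdeal (@P' p _) := by
    rw [IsLocalRing.mem_maximalIdeal, mem_nonunits_iff] at hw ⊢
    intro h
    exact hw ((unit_iff w).mpr h)
  have ha : (vl w).1 - (vl w).2 ∈ (@aP' p _) := vl_mem w
  obtain ⟨a, hadef⟩ : ∃ a, a = (vl w).1 - (vl w).2 := ⟨_, rfl⟩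
  rw [← hadef] at ha
  have hmem : ((0, a) : (@P' p _) × (@P' p _)).1 - ((0, a) : (@P' p _) × (@P' p _)).2 ∈ (@aP' p _) := by
    show 0 - a ∈ (@aP' p _)
    rw [zero_sub]; exact neg_mem ha
  have h2 : (mkT (0, a) hmem) ∈ (Ideal.span (Set.range (@yy' p _))).radical := by
    rw [← Ideal.radical_idem]
    refine ⟨2, ?_⟩
    have : (mkT (0, a) hmem) ^ 2 = (mkT (0, a) hmem) * dg a := by
      apply T_ext
      · rw [vl_pow, vl_mul, vl_mkT, vl_dg, Prod.pow_fst, Prod.fst_mul]; ring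
      · rw [vl_pow, vl_mul, vl_mkT, vl_dg, Prod.pow_snd, Prod.snd_mul]; ring
    rw [this]
    exact Ideal.mul_mem_left _ _ (diag_rad a (aP_le_max ha))
  have : w = dg (vl w).1 - mkT (0, a) hmem := by
    apply T_ext
    · rw [vl_sub, vl_dg, vl_mkT, Prod.fst_sub]; ring
    · rw [vl_sub, vl_dg, vl_mkT, Prod.snd_sub]
      show (vl w).2 = (vl w).1 - a
      rw [hadef]; ring
  rw [this]
  exact Ideal.sub_mem _ (diag_rad _ h1) h2

lemma map_mem_max (f : (@P' p _)) (hf : f ∈ IsLocalRing.maximalIdeal (@P' p _)) :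
    dg f ∈ IsLocalRing.maximalIdeal (@T' p _) := by
  rw [IsLocalRing.mem_maximalIdeal, mem_nonunits_iff] at *
  rw [unit_iff, vl_dg]
  exact hf

lemma rad_eq : (Ideal.span (Set.range (@yy' p _))).radical = IsLocalRing.maximalIdeal (@T' p _) := by
  apply le_antisymm _ max_le
  have hp : (IsLocalRing.maximalIdeal (@T' p _)).IsPrime := inferInstance
  rw [hp.radical_le_iff, Ideal.span_le]
  rintro _ ⟨i, rfl⟩
  fin_cases i
  · exact map_mem_max _ (Ideal.sub_mem _ (gmem 0) (gmem 1))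
  · exact map_mem_max _ (gmem 2)
  · exact map_mem_max _ (Ideal.pow_mem_of_mem _ (gmem 3) 2 (by norm_num))
  · exact map_mem_max _ (Ideal.mul_mem_left _ _ (gmem 1))

lemma dimT_le : ringKrullDim (@T' p _) ≤ (4 : WithBot ℕ∞) := by
  rw [← IsLocalRing.maximalIdeal_height_eq_ringKrullDim]
  have h1 : IsLocalRing.maximalIdeal (@T' p _) ∈ (Ideal.span (Set.range (@yy' p _))).minimalPrimes := by
    rw [← Ideal.radical_minimalPrimes, rad_eq]
    have hp : (IsLocalRing.maximalIdeal (@T' p _)).IsPrime := inferInstance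
    rw [Ideal.minimalPrimes_eq_subsingleton_self]
    rfl
  have h2 := Ideal.height_le_card_of_mem_minimalPrimes_span (Set.finite_range (@yy' p _)) h1
  have h3 : (Set.range (@yy' p _)).ncard ≤ 4 := by
    rw [← Set.image_univ]
    refine (Set.ncard_image_le Set.finite_univ).trans ?_
    simp [Set.ncard_univ]
  have h4 : (IsLocalRing.maximalIdeal (@T' p _)).height ≤ ((4 : ℕ) : ℕ∞) :=
    h2.trans (by exact_mod_cast h3)
  exact WithBot.coe_le_coe.mpr h4

lemma dimP_le_T : ringKrullDim (@P' p _) ≤ ringKrullDim (@T' p _) := ringKrullDim_le_of_surjective (@fstT' p _) fstT_surj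

lemma dimT : ringKrullDim (@T' p _) = 4 := le_antisymm dimT_le (dimP_ge.trans dimP_le_T)
lemma dimP : ringKrullDim (@P' p _) = 4 := le_antisymm (dimP_le_T.trans dimT_le) dimP_ge

lemma minPr (q : Ideal (@T' p _)) (hq : q ∈ minimalPrimes (@T' p _)) : q = RingHom.ker (@fstT' p _) ∨ q = RingHom.ker (@sndT' p _) := by
  have hqp : q.IsPrime := hq.1.1
  have h0 : RingHom.ker (@fstT' p _) * RingHom.ker (@sndT' p _) ≤ q := by
    rw [Ideal.mul_le]
    intro a ha b hb
    have : a * b = 0 := by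
      rw [RingHom.mem_ker, fstT_apply] at ha
      rw [RingHom.mem_ker, sndT_apply] at hb
      apply T_ext
      · rw [vl_mul, vl_zero, Prod.fst_mul, ha, zero_mul]; rfl
      · rw [vl_mul, vl_zero, Prod.snd_mul, hb, mul_zero]; rfl
    rw [this]; exact q.zero_mem
  rcases hqp.mul_le.mp h0 with h | h
  · left
    exact le_antisymm (hq.2 ⟨RingHom.ker_isPrime (@fstT' p _), bot_le⟩ h) h
  · right
    exact le_antisymm (hq.2 ⟨RingHom.ker_isPrime (@sndT' p _), bot_le⟩ h) h

lemma equidim (q : Ideal (@T' p _)) (hq : q ∈ minimalPrimes (@T' p _)) : ringKrullDim ((@T' p _) ⧸ q) = ringKrullDim (@T' p _) := by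
  rw [dimT, ← dimP (p := p)]
  rcases minPr q hq with rfl | rfl
  · exact ringKrullDim_eq_of_ringEquiv (RingHom.quotientKerEquivOfSurjective fstT_surj)
  · exact ringKrullDim_eq_of_ringEquiv (RingHom.quotientKerEquivOfSurjective sndT_surj)



/-! the evaluation `x,y ↦ X`, `z ↦ 0`, `u ↦ ε` -/


def θ0'  : (@P0' p _) →+* (DualNumber (PowerSeries (ZMod p))) :=
  MvPolynomial.eval₂Hom ((TrivSqZeroExt.inlHom (PowerSeries (ZMod p)) (PowerSeries (ZMod p))).comp (PowerSeries.C (R := ZMod p)))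
    ![TrivSqZeroExt.inl PowerSeries.X, TrivSqZeroExt.inl PowerSeries.X, 0, DualNumber.eps]

lemma θ0_0 : (@θ0' p _) (X 0) = TrivSqZeroExt.inl PowerSeries.X := by simp [θ0']
lemma θ0_1 : (@θ0' p _) (X 1) = TrivSqZeroExt.inl PowerSeries.X := by simp [θ0']
lemma θ0_2 : (@θ0' p _) (X 2) = 0 := by simp [θ0']
lemma θ0_3 : (@θ0' p _) (X 3) = DualNumber.eps := by simp [θ0']

lemma θ0_const : ((PowerSeries.constantCoeff (R := ZMod p)).comp
    (TrivSqZeroExt.fstHom (PowerSeries (ZMod p)) (PowerSeries (ZMod p)) (PowerSeries (ZMod p))).toRingHom).comp (@θ0' p _) = (constantCoeff : (@P0' p _) →+* ZMod p) := by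
  apply MvPolynomial.ringHom_ext
  · intro r
    simp [θ0']
  · intro i
    fin_cases i
    · simp [θ0']
    · simp [θ0']
    · simp [θ0']
    · simp [θ0']

lemma θ0_unit (y : ((@m0' p _)).primeCompl) : IsUnit ((@θ0' p _) y) := by
  rw [TrivSqZeroExt.isUnit_iff_isUnit_fst, PowerSeries.isUnit_iff_constantCoeff]
  have h1 : PowerSeries.constantCoeff (R := ZMod p) (TrivSqZeroExt.fst ((@θ0' p _) y))
      = constantCoeff (y : (@P0' p _)) := by
    rw [← θ0_const]; rfl
  rw [h1]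
  have h2 : constantCoeff (y : (@P0' p _)) ≠ 0 := fun h => y.2 h
  exact h2.isUnit

def θ'  : (@P' p _) →+* (DualNumber (PowerSeries (ZMod p))) := IsLocalization.lift (M := ((@m0' p _)).primeCompl) θ0_unit

lemma θ_alg (f : (@P0' p _)) : (@θ' p _) (algebraMap (@P0' p _) (@P' p _) f) = (@θ0' p _) f := IsLocalization.lift_eq _ _

lemma θ_x : (@θ' p _) (@gx' p _) = TrivSqZeroExt.inl PowerSeries.X := by rw [gx', θ_alg, θ0_0]
lemma θ_y : (@θ' p _) (@gy' p _) = TrivSqZeroExt.inl PowerSeries.X := by rw [gy', θ_alg, θ0_1]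
lemma θ_z : (@θ' p _) (@gz' p _) = 0 := by rw [gz', θ_alg, θ0_2]
lemma θ_u : (@θ' p _) (@gu' p _) = DualNumber.eps := by rw [gu', θ_alg, θ0_3]

lemma eps_sq : (DualNumber.eps : (DualNumber (PowerSeries (ZMod p)))) ^ 2 = 0 := by rw [pow_two, DualNumber.eps_mul_eps]

lemma eps_pow : (DualNumber.eps : (DualNumber (PowerSeries (ZMod p)))) ^ p = 0 := pow_eq_zero_of_le hp.out.two_le eps_sq

lemma θ_a (a : (@P' p _)) (ha : a ∈ (@aP' p _)) : ∃ w, (@θ' p _) a = (TrivSqZeroExt.inl PowerSeries.X) ^ 2 * w := by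
  rw [aP_eq] at ha
  induction ha using Submodule.span_induction with
  | mem x h =>
    rcases h with rfl | rfl | rfl
    · exact ⟨1, by rw [map_mul, θ_x, θ_y]; ring⟩
    · exact ⟨0, by rw [map_mul, θ_z]; ring⟩
    · refine ⟨0, ?_⟩
      rw [map_mul, map_sub, map_pow, θ_z, θ_u, eps_pow]; ring
  | zero => exact ⟨0, by rw [map_zero]; ring⟩
  | add x y _ _ hx hy =>
    obtain ⟨w, hw⟩ := hx
    obtain ⟨w', hw'⟩ := hy
    exact ⟨w + w', by rw [map_add, hw, hw']; ring⟩
  | smul c x _ hx =>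
    obtain ⟨w, hw⟩ := hx
    exact ⟨(@θ' p _) c * w, by rw [smul_eq_mul, map_mul, hw]; ring⟩

lemma X_cancel (w : (DualNumber (PowerSeries (ZMod p)))) (h : (TrivSqZeroExt.inl PowerSeries.X : (DualNumber (PowerSeries (ZMod p)))) * w = 0) : w = 0 := by
  have h1 := congrArg TrivSqZeroExt.fst h
  have h2 := congrArg TrivSqZeroExt.snd h
  simp only [TrivSqZeroExt.fst_mul, TrivSqZeroExt.fst_inl, TrivSqZeroExt.fst_zero] at h1
  simp only [TrivSqZeroExt.snd_mul, TrivSqZeroExt.fst_inl, TrivSqZeroExt.snd_inl, smul_zero,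
    TrivSqZeroExt.snd_zero, add_zero, smul_eq_mul] at h2
  apply TrivSqZeroExt.ext
  · exact (mul_eq_zero.mp h1).resolve_left PowerSeries.X_ne_zero
  · exact (mul_eq_zero.mp h2).resolve_left PowerSeries.X_ne_zero

lemma final_contra (w : (DualNumber (PowerSeries (ZMod p))))
    (h : DualNumber.eps * (TrivSqZeroExt.inl PowerSeries.X : (DualNumber (PowerSeries (ZMod p))))
      = (TrivSqZeroExt.inl PowerSeries.X) ^ 2 * w) : False := by
  have h0 : (TrivSqZeroExt.inl PowerSeries.X : (DualNumber (PowerSeries (ZMod p)))) *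
      (DualNumber.eps - TrivSqZeroExt.inl PowerSeries.X * w) = 0 := by
    linear_combination h
  have h1 := X_cancel _ h0
  have h2 := congrArg TrivSqZeroExt.snd h1
  simp only [TrivSqZeroExt.snd_sub, TrivSqZeroExt.snd_mul, TrivSqZeroExt.fst_inl,
    TrivSqZeroExt.snd_inl, smul_zero, add_zero, smul_eq_mul, TrivSqZeroExt.snd_zero,
    DualNumber.snd_eps] at h2
  have h3 := congrArg (PowerSeries.constantCoeff (R := ZMod p)) h2
  simp at h3

/-- the element `r = (u x · x y, 0)` -/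
lemma hr_mem : (((@gu' p _) * (@gx' p _) * ((@gx' p _) * (@gy' p _)), 0) : (@P' p _) × (@P' p _)).1 - (((@gu' p _) * (@gx' p _) * ((@gx' p _) * (@gy' p _)), 0) : (@P' p _) × (@P' p _)).2 ∈ (@aP' p _) := by
  show (@gu' p _) * (@gx' p _) * ((@gx' p _) * (@gy' p _)) - 0 ∈ (@aP' p _)
  rw [sub_zero, aP_eq]
  exact Ideal.mul_mem_left _ _ (Ideal.subset_span (by simp))

def rr'  : (@T' p _) := mkT ((@gu' p _) * (@gx' p _) * ((@gx' p _) * (@gy' p _)), 0) hr_mem

lemma rr_not_mem : (@rr' p _) ∉ Ideal.span (Set.range (@yy' p _)) := by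
  intro h
  rw [Ideal.mem_span_range_iff_exists_fun] at h
  obtain ⟨c, hc⟩ := h
  rw [Fin.sum_univ_four, yy0, yy1, yy2, yy3] at hc
  have hc' := congrArg vl hc
  rw [vl_add, vl_add, vl_add, vl_mul, vl_mul, vl_mul, vl_mul, vl_dg, vl_dg, vl_dg, vl_dg,
    rr', vl_mkT] at hc'
  have h1 : (vl (c 0)).1 * ((@gx' p _) - (@gy' p _)) + (vl (c 1)).1 * (@gz' p _) + (vl (c 2)).1 * (@gu' p _) ^ 2
      + (vl (c 3)).1 * ((@gx' p _) * (@gy' p _)) = (@gu' p _) * (@gx' p _) * ((@gx' p _) * (@gy' p _)) := congrArg Prod.fst hc'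
  have h2 : (vl (c 0)).2 * ((@gx' p _) - (@gy' p _)) + (vl (c 1)).2 * (@gz' p _) + (vl (c 2)).2 * (@gu' p _) ^ 2
      + (vl (c 3)).2 * ((@gx' p _) * (@gy' p _)) = 0 := congrArg Prod.snd hc'
  have h1' := congrArg (@θ' p _) h1
  have h2' := congrArg (@θ' p _) h2
  simp only [map_add, map_mul, map_sub, map_pow, map_zero, θ_x, θ_y, θ_z, θ_u, eps_sq, sub_self,
    mul_zero, zero_add] at h1' h2'
  have h3 : (@θ' p _) ((vl (c 3)).1 - (vl (c 3)).2) = DualNumber.eps * TrivSqZeroExt.inl PowerSeries.X := by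
    rw [← sub_eq_zero]
    apply X_cancel
    apply X_cancel
    rw [map_sub]
    linear_combination h1' - h2'
  obtain ⟨w, hw⟩ := θ_a _ (vl_mem (c 3))
  rw [h3] at hw
  exact final_contra w hw

lemma rr_sq : (@rr' p _) ^ (p ^ 1) ∈ Ideal.span ((fun a : (@T' p _) => a ^ (p ^ 1)) ''
    ((Ideal.span (Set.range (@yy' p _)) : Ideal (@T' p _)) : Set (@T' p _))) := by
  have hab : ((@gx' p _) * (@gy' p _)) ^ p ∈ (@aP' p _) := by
    rw [aP_eq]
    exact Ideal.pow_mem_of_mem _ (Ideal.subset_span (by simp)) _ hp.out.pos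
  have m1 : ((((@gu' p _) ^ p - (@gz' p _)) * ((@gx' p _) * (@gy' p _)) ^ p, 0) : (@P' p _) × (@P' p _)).1
      - ((((@gu' p _) ^ p - (@gz' p _)) * ((@gx' p _) * (@gy' p _)) ^ p, 0) : (@P' p _) × (@P' p _)).2 ∈ (@aP' p _) := by
    show ((@gu' p _) ^ p - (@gz' p _)) * ((@gx' p _) * (@gy' p _)) ^ p - 0 ∈ (@aP' p _)
    rw [sub_zero]
    exact Ideal.mul_mem_left _ _ hab
  have m2 : (((@gz' p _) * (@gx' p _) ^ p - ((@gz' p _) - (@gu' p _) ^ p) * (@gy' p _) ^ p, 0) : (@P' p _) × (@P' p _)).1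
      - (((@gz' p _) * (@gx' p _) ^ p - ((@gz' p _) - (@gu' p _) ^ p) * (@gy' p _) ^ p, 0) : (@P' p _) × (@P' p _)).2 ∈ (@aP' p _) := by
    show (@gz' p _) * (@gx' p _) ^ p - ((@gz' p _) - (@gu' p _) ^ p) * (@gy' p _) ^ p - 0 ∈ (@aP' p _)
    have : (@gz' p _) * (@gx' p _) ^ p - ((@gz' p _) - (@gu' p _) ^ p) * (@gy' p _) ^ p - 0 =
      (@gx' p _) ^ (p - 1) * ((@gx' p _) * (@gz' p _)) - (@gy' p _) ^ (p - 1) * ((@gy' p _) * ((@gz' p _) - (@gu' p _) ^ p)) := by
      rw [pp p (@P' p _) (@gx' p _), pp p (@P' p _) (@gy' p _)]; ring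
    rw [this, aP_eq]
    exact Ideal.sub_mem _ (Ideal.mul_mem_left _ _ (Ideal.subset_span (by simp)))
      (Ideal.mul_mem_left _ _ (Ideal.subset_span (by simp)))
  have e : (@rr' p _) ^ (p ^ 1) = mkT _ m1 * (@yy' p _) 0 ^ (p ^ 1) + mkT _ m2 * (@yy' p _) 3 ^ (p ^ 1) := by
    rw [pow_one]
    have hs : ((@gx' p _) - (@gy' p _)) ^ p = (@gx' p _) ^ p - (@gy' p _) ^ p := sub_pow_char (@gx' p _) (@gy' p _)
    apply T_ext
    · simp only [rr', yy0, yy3, vl_add, vl_mul, vl_pow, vl_mkT, vl_dg, Prod.fst_add, Prod.fst_mul,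
        Prod.pow_fst]
      rw [hs]
      ring
    · simp only [rr', yy0, yy3, vl_add, vl_mul, vl_pow, vl_mkT, vl_dg, Prod.snd_add, Prod.snd_mul,
        Prod.pow_snd]
      rw [zero_pow hp.out.ne_zero]
      ring
  rw [e]
  refine Ideal.add_mem _ (Ideal.mul_mem_left _ _ ?_) (Ideal.mul_mem_left _ _ ?_)
  · exact Ideal.subset_span ⟨(@yy' p _) 0, yy_mem 0, rfl⟩
  · exact Ideal.subset_span ⟨(@yy' p _) 3, yy_mem 3, rfl⟩

end Pool.Agent.H77.INS.Fc

end

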