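import Mathlib
import Pool.Agent.H77.INS.FC

set_option autoImplicit false

/-!
The Frobenius splitting of `T/uT`.
-/

noncomputable section
open MvPolynomial

namespace Pool.Agent.H77.INS.Fc

variable {p : ℕ} [hp : Fact p.Prime]


/-- `t` represents the value of the splitting at the class of `w` -/
def Rel (w t : (@T' p _)) : Prop :=
  (∃ h : (@P' p _), (vl t).1 = Φ (vl w).1 + (@gu' p _) * h) ∧ ∃ h : (@P' p _), (vl t).2 = Φ (vl w).2 + (@gu' p _) * h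

lemma rel_exists (w : (@T' p _)) : ∃ t : (@T' p _), Rel w t := by
  have h1 : Φ (vl w).1 - Φ (vl w).2 ∈ (@bP' p _) := by
    rw [← Φ_sub]
    exact Φ_b _ (aP_le_bP (vl_mem w))
  obtain ⟨a, ha, h, hh⟩ := mem_bP _ h1
  have ht : ((Φ (vl w).1, Φ (vl w).2 + (@gu' p _) * h) : (@P' p _) × (@P' p _)).1 -
      ((Φ (vl w).1, Φ (vl w).2 + (@gu' p _) * h) : (@P' p _) × (@P' p _)).2 ∈ (@aP' p _) := by
    show Φ (vl w).1 - (Φ (vl w).2 + (@gu' p _) * h) ∈ (@aP' p _)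
    have : Φ (vl w).1 - (Φ (vl w).2 + (@gu' p _) * h) = a := by linear_combination hh
    rw [this]; exact ha
  refine ⟨mkT _ ht, ⟨0, ?_⟩, ⟨h, ?_⟩⟩
  · rw [vl_mkT, mul_zero, add_zero]
  · rw [vl_mkT]

lemma rel_unique {w t t' : (@T' p _)} (h : Rel w t) (h' : Rel w t') : t - t' ∈ Ideal.span {(@uT' p _)} := by
  obtain ⟨⟨a1, e1⟩, ⟨a2, e2⟩⟩ := h
  obtain ⟨⟨b1, f1⟩, ⟨b2, f2⟩⟩ := h'
  have hv : (a1 - b1) - (a2 - b2) ∈ (@aP' p _) := by
    apply u_reg'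
    have : (@gu' p _) * ((a1 - b1) - (a2 - b2)) = ((vl t).1 - (vl t).2) - ((vl t').1 - (vl t').2) := by
      rw [e1, e2, f1, f2]; ring
    rw [this]
    exact Ideal.sub_mem _ (vl_mem t) (vl_mem t')
  rw [Ideal.mem_span_singleton]
  refine ⟨mkT (a1 - b1, a2 - b2) hv, ?_⟩
  apply T_ext
  · rw [vl_sub, vl_mul, vl_uT, vl_mkT, Prod.fst_sub, Prod.fst_mul, e1, f1]; ring
  · rw [vl_sub, vl_mul, vl_uT, vl_mkT, Prod.snd_sub, Prod.snd_mul, e2, f2]; ring

lemma rel_add {w t w' t' : (@T' p _)} (h : Rel w t) (h' : Rel w' t') : Rel (w + w') (t + t') := by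
  obtain ⟨⟨a1, e1⟩, ⟨a2, e2⟩⟩ := h
  obtain ⟨⟨b1, f1⟩, ⟨b2, f2⟩⟩ := h'
  refine ⟨⟨a1 + b1, ?_⟩, ⟨a2 + b2, ?_⟩⟩
  · rw [vl_add, vl_add, Prod.fst_add, Prod.fst_add, Φ_add, e1, f1]; ring
  · rw [vl_add, vl_add, Prod.snd_add, Prod.snd_add, Φ_add, e2, f2]; ring

lemma rel_mul (a : (@T' p _)) {w t : (@T' p _)} (h : Rel w t) : Rel (a ^ p * w) (a * t) := by
  obtain ⟨⟨a1, e1⟩, ⟨a2, e2⟩⟩ := h
  refine ⟨⟨(vl a).1 * a1, ?_⟩, ⟨(vl a).2 * a2, ?_⟩⟩
  · rw [vl_mul, vl_mul, vl_pow, Prod.fst_mul, Prod.fst_mul, Prod.pow_fst, Φ_mul, e1]; ring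
  · rw [vl_mul, vl_mul, vl_pow, Prod.snd_mul, Prod.snd_mul, Prod.pow_snd, Φ_mul, e2]; ring

lemma rel_one : Rel (1 : (@T' p _)) 1 := by
  refine ⟨⟨0, ?_⟩, ⟨0, ?_⟩⟩
  · rw [vl_one, Prod.fst_one, Φ_one]; ring
  · rw [vl_one, Prod.snd_one, Φ_one]; ring

lemma rel_u (v : (@T' p _)) : Rel ((@uT' p _) * v) 0 := by
  obtain ⟨d1, h1⟩ := Φ_u (vl v).1
  obtain ⟨d2, h2⟩ := Φ_u (vl v).2
  refine ⟨⟨-d1, ?_⟩, ⟨-d2, ?_⟩⟩
  · rw [vl_mul, vl_uT, vl_zero, Prod.fst_mul, Prod.fst_zero]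
    show 0 = Φ ((@gu' p _) * (vl v).1) + _
    rw [h1]; ring
  · rw [vl_mul, vl_uT, vl_zero, Prod.snd_mul, Prod.snd_zero]
    show 0 = Φ ((@gu' p _) * (vl v).2) + _
    rw [h2]; ring

abbrev mkQ (t : (@T' p _)) : (@T' p _) ⧸ Ideal.span {(@uT' p _)} := Ideal.Quotient.mk (Ideal.span {(@uT' p _)}) t

lemma rel_mk {w w' t t' : (@T' p _)} (hw : mkQ w = mkQ w') (h : Rel w t) (h' : Rel w' t') :
    mkQ t = mkQ t' := by
  have h1 : w - w' ∈ Ideal.span {(@uT' p _)} := Ideal.Quotient.eq.mp hw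
  rw [Ideal.mem_span_singleton] at h1
  obtain ⟨v, hv⟩ := h1
  have h2 : w = w' + (@uT' p _) * v := by rw [← hv]; ring
  have h3 := rel_add h' (rel_u v)
  rw [← h2, add_zero] at h3
  exact Ideal.Quotient.eq.mpr (rel_unique h h3)

/-- the splitting -/
def spl (r : (@T' p _) ⧸ Ideal.span {(@uT' p _)}) : (@T' p _) ⧸ Ideal.span {(@uT' p _)} :=
  mkQ (rel_exists (Ideal.Quotient.mk_surjective r).choose).choose

lemma spl_eq {w t : (@T' p _)} (h : Rel w t) : spl (mkQ w) = mkQ t := by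
  refine rel_mk (w := (Ideal.Quotient.mk_surjective (mkQ w)).choose) (w' := w) ?_
    (rel_exists _).choose_spec h
  exact (Ideal.Quotient.mk_surjective (mkQ w)).choose_spec

lemma split_T : ∃ φ : ((@T' p _) ⧸ Ideal.span {(@uT' p _)}) →+ ((@T' p _) ⧸ Ideal.span {(@uT' p _)}),
    (∀ a b, φ (a ^ p * b) = a * φ b) ∧ φ 1 = 1 := by
  refine ⟨AddMonoidHom.mk' spl ?_, ?_, ?_⟩
  · intro a b
    obtain ⟨a, rfl⟩ := Ideal.Quotient.mk_surjective a
    obtain ⟨b, rfl⟩ := Ideal.Quotient.mk_surjective b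
    obtain ⟨t, ht⟩ := rel_exists a
    obtain ⟨t', ht'⟩ := rel_exists b
    have h1 := spl_eq (rel_add ht ht')
    have e1 : mkQ (a + b) = mkQ a + mkQ b := map_add (Ideal.Quotient.mk (Ideal.span {(@uT' p _)})) a b
    have e2 : mkQ (t + t') = mkQ t + mkQ t' := map_add (Ideal.Quotient.mk (Ideal.span {(@uT' p _)})) t t'
    rw [e1, e2, ← spl_eq ht, ← spl_eq ht'] at h1
    exact h1
  · intro a b
    obtain ⟨a, rfl⟩ := Ideal.Quotient.mk_surjective a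
    obtain ⟨b, rfl⟩ := Ideal.Quotient.mk_surjective b
    obtain ⟨t, ht⟩ := rel_exists b
    have h1 := spl_eq (rel_mul a ht)
    have e1 : mkQ (a ^ p * b) = mkQ a ^ p * mkQ b := by
      rw [mkQ, mkQ, mkQ, ← map_pow, ← map_mul]
    have e2 : mkQ (a * t) = mkQ a * mkQ t := map_mul (Ideal.Quotient.mk (Ideal.span {(@uT' p _)})) a t
    rw [e1, e2, ← spl_eq ht] at h1
    exact h1
  · show spl 1 = 1
    have h1 := spl_eq (rel_one (p := p))
    rw [mkQ, map_one] at h1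
    exact h1

lemma vlHom_inj : Function.Injective (vlHom : (@T' p _) →+* (@P' p _) × (@P' p _)) := by
  intro v w h
  rw [vlHom_apply, vlHom_apply] at h
  exact T_ext (congrArg Prod.fst h) (congrArg Prod.snd h)

lemma red_T : IsReduced (@T' p _) := isReduced_of_injective vlHom vlHom_inj

/-- in a ring with a Frobenius splitting all ideals are Frobenius closed -/
lemma closed_of_split {R : Type} [CommRing R] (p : ℕ) (φ : R →+ R)
    (h1 : ∀ a b, φ (a ^ p * b) = a * φ b) (h2 : φ 1 = 1) (I : Ideal R) (e : ℕ) : ∀ r : R,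
    r ^ (p ^ e) ∈ Ideal.span {b | ∃ a ∈ I, b = a ^ (p ^ e)} → r ∈ I := by
  induction e with
  | zero =>
    intro r hr
    rw [pow_zero, pow_one] at hr
    refine (Ideal.span_le.mpr ?_) hr
    rintro _ ⟨a, ha, rfl⟩
    rw [pow_one]
    exact ha
  | succ e ih =>
    intro r hr
    apply ih
    have key : ∀ y ∈ Ideal.span {b | ∃ a ∈ I, b = a ^ (p ^ (e + 1))}, ∀ c : R,
        φ (y * c) ∈ Ideal.span {b | ∃ a ∈ I, b = a ^ (p ^ e)} := by
      intro y hy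
      induction hy using Submodule.span_induction with
      | mem x h =>
        intro c
        obtain ⟨a, ha, rfl⟩ := h
        have : a ^ (p ^ (e + 1)) = (a ^ (p ^ e)) ^ p := by rw [← pow_mul, pow_succ]
        rw [this, h1]
        exact Ideal.mul_mem_right _ _ (Ideal.subset_span ⟨a, ha, rfl⟩)
      | zero => intro c; rw [zero_mul, map_zero]; exact Ideal.zero_mem _
      | add x y _ _ hx hy => intro c; rw [add_mul, map_add]; exact Ideal.add_mem _ (hx c) (hy c)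
      | smul a x _ hx =>
        intro c
        have : a • x * c = x * (a * c) := by rw [smul_eq_mul]; ring
        rw [this]
        exact hx _
    have h3 := key _ hr 1
    have h4 : r ^ (p ^ (e + 1)) = (r ^ (p ^ e)) ^ p := by rw [← pow_mul, pow_succ]
    rw [h4, h1, h2, mul_one] at h3
    exact h3

end Pool.Agent.H77.INS.Fc

end
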